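import Pool.Agent.helper55.RI.Spec

set_option autoImplicit false

namespace Pool.Agent.RI

open Pool.Agent.helper62 Prog Function Pool.Agent.helper81.PL

/-- the bound for the numbers of the words of length `≤ n` -/
def R5_B (n : ℕ) : ℕ := Nat.rec 1 (fun _ r => r + (Nat.succ (Nat.pair 1 r) + 1)) n

theorem R5_iter (a : ℕ) (x : W) :
    Nat.rec (false :: x) (fun _ r => true :: r) a = pre a x := by
  induction a with
  | zero => rfl
  | succ a ih =>
    show true :: (Nat.rec (false :: x) (fun _ r => true :: r) a) = pre (a + 1) x
    rw [ih]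
    rfl

theorem R5_enc_lt : ∀ (x : W) (n : ℕ), x.length ≤ n → enc x < R5_B n := by
  have hpos : ∀ n, 1 ≤ R5_B n := by
    intro n
    induction n with
    | zero => exact le_refl _
    | succ n ih =>
      show 1 ≤ R5_B n + (Nat.succ (Nat.pair 1 (R5_B n)) + 1)
      omega
  intro x
  induction x with
  | nil =>
    intro n _
    have h : enc ([] : W) = 0 := rfl
    rw [h]
    exact hpos n
  | cons b l ih =>
    intro n hn
    cases n with
    | zero => simp at hn
    | succ n =>
      have h1 := ih n (by simpa using hn)
      have h2 : enc (b :: l) = Nat.succ (Nat.pair (Encodable.encode b) (enc l)) := rfl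
      have h3 : Encodable.encode b ≤ 1 := by
        cases b
        · exact Nat.zero_le _
        · exact le_refl _
      have h4 : Nat.pair (Encodable.encode b) (enc l) ≤ Nat.pair 1 (enc l) := by
        rcases Nat.lt_or_ge (Encodable.encode b) 1 with h | h
        · exact (Nat.pair_lt_pair_left (enc l) h).le
        · have : Encodable.encode b = 1 := le_antisymm h3 h
          rw [this]
      have h5 := Nat.pair_lt_pair_right 1 h1
      rw [h2]
      show _ < R5_B n + (Nat.succ (Nat.pair 1 (R5_B n)) + 1)
      omega

theorem R5 : R5_stmt := by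
  refine ⟨?_, Computable.list_length, ?_, Computable.encode, ?_, ?_, R5_B, ?_, R5_enc_lt⟩
  · have h : Primrec (fun p : ℕ × W =>
        (Nat.rec (false :: p.2) (fun _ r => true :: r) p.1 : W)) := by
      refine Primrec.nat_rec' (f := fun p : ℕ × W => p.1) (g := fun p : ℕ × W => false :: p.2)
        (h := fun (_ : ℕ × W) (q : ℕ × W) => true :: q.2) Primrec.fst ?_ ?_
      · exact Primrec.list_cons.comp (Primrec.const false) Primrec.snd
      · exact Primrec.list_cons.comp (Primrec.const true) (Primrec.snd.comp Primrec.snd)
    exact (h.of_eq (fun p => R5_iter p.1 p.2)).to_comp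
  · have h : Primrec (fun n : ℕ => (Nat.rec 1 (fun _ r => 2 * r) n : ℕ)) := by
      refine Primrec.nat_rec' (f := fun n : ℕ => n) (g := fun _ => 1)
        (h := fun (_ : ℕ) (q : ℕ × ℕ) => 2 * q.2) Primrec.id (Primrec.const 1) ?_
      exact Primrec.nat_mul.comp (Primrec.const 2) (Primrec.snd.comp Primrec.snd)
    refine (h.of_eq (fun n => ?_)).to_comp
    induction n with
    | zero => rfl
    | succ n ih =>
      show 2 * (Nat.rec 1 (fun _ r => 2 * r) n : ℕ) = 2 ^ (n + 1)
      rw [ih, pow_succ, mul_comm]
  · have h : Computable (fun n : ℕ => (Encodable.decode (α := W) n)) := Computable.decode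
    exact Computable.option_getD h (Computable.const ([] : W))
  · intro x
    unfold dw enc
    rw [Encodable.encodek]
    rfl
  · have h : Primrec R5_B := by
      refine Primrec.nat_rec' (f := fun n : ℕ => n) (g := fun _ => 1)
        (h := fun (_ : ℕ) (q : ℕ × ℕ) => q.2 + (Nat.succ (Nat.pair 1 q.2) + 1))
        Primrec.id (Primrec.const 1) ?_
      have h1 : Primrec (fun p : ℕ × ℕ × ℕ => p.2.2) := Primrec.snd.comp Primrec.snd
      have h2 : Primrec (fun p : ℕ × ℕ × ℕ => Nat.pair 1 p.2.2) :=
        Primrec₂.natPair.comp (Primrec.const 1) h1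
      exact Primrec.nat_add.comp h1 (Primrec.nat_add.comp (Primrec.succ.comp h2)
        (Primrec.const 1))
    exact h.to_comp

end Pool.Agent.RI
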